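import Pool.Agent.Y522.NA.Stm

/-!
# Job NA-Grow: the approximating linear maps degenerate slowly (helper475)
-/

set_option autoImplicit false

open Metric

namespace Pool.Agent.Y475.NA

open Pool.Agent.Y522 Pool.Agent.Y522.NA

theorem cmp (n : ℕ) (g : E n → E n) (p p' : E n) (r r' : ℝ) (hr : 0 < r') (hrr : r ≤ 8 * r')
    (hpp : ‖p' - p‖ + r' ≤ r) (L L' : E n ≃L[ℝ] E n) (h : Apx n (1 / 1000) g p r L)
    (h' : Apx n (1 / 1000) g p' r' L') :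
    ‖(L' : E n →L[ℝ] E n)‖ ≤ 51 / 50 * ‖(L : E n →L[ℝ] E n)‖ ∧
    ‖(L'.symm : E n →L[ℝ] E n)‖ ≤ 51 / 50 * ‖(L.symm : E n →L[ℝ] E n)‖ := by
  obtain ⟨M, hM⟩ : ∃ M : E n →L[ℝ] E n, M = (L.symm : E n →L[ℝ] E n).comp (L' : E n →L[ℝ] E n) :=
    ⟨_, rfl⟩
  have hMa : ∀ v, M v = L.symm (L' v) := by
    intro v
    rw [hM]
    rfl
  have hM0 := norm_nonneg M
  have hpp0 := norm_nonneg (p' - p)
  have key : ∀ v : E n, ‖v‖ ≤ r' → ‖M v - v‖ ≤ (16 + ‖M‖) / 1000 * r' := by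
    intro v hv
    obtain ⟨e', he'⟩ : ∃ e', e' = L'.symm (g (p' + v) - g p') - v := ⟨_, rfl⟩
    obtain ⟨a1, ha1⟩ : ∃ a1, a1 = L.symm (g (p + (p' - p + v)) - g p) - (p' - p + v) := ⟨_, rfl⟩
    obtain ⟨a2, ha2⟩ : ∃ a2, a2 = L.symm (g (p + (p' - p)) - g p) - (p' - p) := ⟨_, rfl⟩
    have n1 : ‖e'‖ ≤ 1 / 1000 * r' := he' ▸ h' v hv
    have n2 : ‖a1‖ ≤ 1 / 1000 * r := ha1 ▸ h _ ((norm_add_le _ _).trans (by linarith))
    have n3 : ‖a2‖ ≤ 1 / 1000 * r := ha2 ▸ h _ (by linarith)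
    have e1 : M (v + e') = v + a1 - a2 := by
      have e2 : v + e' = L'.symm (g (p' + v) - g p') := by rw [he']; abel
      rw [e2, hMa, ContinuousLinearEquiv.apply_symm_apply, ha1, ha2]
      have e3 : p + (p' - p + v) = p' + v := by abel
      have e4 : p + (p' - p) = p' := by abel
      rw [e3, e4]
      have e5 : g (p' + v) - g p' = (g (p' + v) - g p) - (g p' - g p) := by abel
      rw [e5, map_sub]
      abel
    rw [map_add] at e1
    have e6 : M v - v = a1 - a2 - M e' := by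
      have : M v = v + a1 - a2 - M e' := eq_sub_of_add_eq e1
      rw [this]
      abel
    rw [e6]
    have n4 : ‖M e'‖ ≤ ‖M‖ * (1 / 1000 * r') :=
      (M.le_opNorm e').trans (mul_le_mul_of_nonneg_left n1 hM0)
    calc ‖a1 - a2 - M e'‖ ≤ ‖a1 - a2‖ + ‖M e'‖ := norm_sub_le _ _
      _ ≤ (‖a1‖ + ‖a2‖) + ‖M e'‖ := by
          have := norm_sub_le a1 a2
          linarith
      _ ≤ (16 + ‖M‖) / 1000 * r' := by nlinarith
  obtain ⟨K, hK⟩ : ∃ K, K = (16 + ‖M‖) / 1000 := ⟨_, rfl⟩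
  rw [← hK] at key
  have hK0 : 0 ≤ K := by
    rw [hK]
    positivity
  have hall : ∀ v : E n, ‖M v - v‖ ≤ K * ‖v‖ := by
    intro v
    by_cases hv : v = 0
    · rw [hv, map_zero, sub_zero, norm_zero, mul_zero]
    · have hvn : 0 < ‖v‖ := norm_pos_iff.2 hv
      obtain ⟨t, ht⟩ : ∃ t, t = r' / ‖v‖ := ⟨_, rfl⟩
      have ht0 : 0 < t := by
        rw [ht]
        positivity
      have h1 := key (t • v) (by
        rw [norm_smul, Real.norm_of_nonneg ht0.le, ht]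
        field_simp
        exact le_rfl)
      rw [map_smul, ← smul_sub, norm_smul, Real.norm_of_nonneg ht0.le] at h1
      have h2 : r' = t * ‖v‖ := by
        rw [ht]
        field_simp
      rw [h2] at h1
      have h3 : t * ‖M v - v‖ ≤ t * (K * ‖v‖) := by linarith
      exact le_of_mul_le_mul_left h3 ht0
  have hM1 : ‖M‖ ≤ 1 + K := by
    refine M.opNorm_le_bound (by linarith) fun v => ?_
    have h1 := hall v
    have h2 : ‖M v‖ ≤ ‖M v - v‖ + ‖v‖ := by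
      have := norm_add_le (M v - v) v
      rwa [sub_add_cancel] at this
    linarith
  have hM2 : ‖M‖ ≤ 51 / 50 := by
    rw [hK] at hM1
    linarith
  have hK1 : K ≤ 1 / 51 := by
    rw [hK]
    linarith
  constructor
  · refine ContinuousLinearMap.opNorm_le_bound _ (by positivity) fun v => ?_
    have e1 : (L' : E n →L[ℝ] E n) v = (L : E n →L[ℝ] E n) (M v) := by
      rw [hMa]
      show L' v = L (L.symm (L' v))
      rw [ContinuousLinearEquiv.apply_symm_apply]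
    rw [e1]
    have h1 := (L : E n →L[ℝ] E n).le_opNorm (M v)
    have h2 := M.le_opNorm v
    have h3 : ‖M‖ * ‖v‖ ≤ 51 / 50 * ‖v‖ := mul_le_mul_of_nonneg_right hM2 (norm_nonneg v)
    have h4 : ‖(L : E n →L[ℝ] E n)‖ * ‖M v‖ ≤ ‖(L : E n →L[ℝ] E n)‖ * (51 / 50 * ‖v‖) :=
      mul_le_mul_of_nonneg_left (h2.trans h3) (norm_nonneg _)
    calc _ ≤ _ := h1
      _ ≤ _ := h4
      _ = _ := by ring
  · refine ContinuousLinearMap.opNorm_le_bound _ (by positivity) fun w => ?_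
    obtain ⟨u, hu⟩ : ∃ u, u = (L'.symm : E n →L[ℝ] E n) w := ⟨_, rfl⟩
    rw [← hu]
    have e1 : M u = (L.symm : E n →L[ℝ] E n) w := by
      rw [hMa, hu]
      show L.symm (L' (L'.symm w)) = L.symm w
      rw [ContinuousLinearEquiv.apply_symm_apply]
    have h1 := hall u
    have h2 : ‖u‖ ≤ ‖M u‖ + ‖M u - u‖ := by
      have := norm_sub_le (M u) (M u - u)
      rwa [sub_sub_cancel] at this
    have h3 : ‖M u‖ ≤ ‖(L.symm : E n →L[ℝ] E n)‖ * ‖w‖ := by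
      rw [e1]
      exact (L.symm : E n →L[ℝ] E n).le_opNorm w
    have h4 : K * ‖u‖ ≤ 1 / 51 * ‖u‖ := mul_le_mul_of_nonneg_right hK1 (norm_nonneg u)
    have h5 : ‖u‖ * (50 / 51) ≤ ‖(L.symm : E n →L[ℝ] E n)‖ * ‖w‖ := by linarith
    linarith

theorem steps (n : ℕ) (g : E n → E n) (ρ : ℝ) (hρ : 0 < ρ) (hg : NAff n (1 / 1000) ρ g)
    (Λ : E n ≃L[ℝ] E n) (hΛ : Apx n (1 / 1000) g 0 (ρ / 2) Λ) (p : E n) (hp : ‖p‖ < ρ / 16)
    (k : ℕ) : ∀ c : ℝ, ρ / 8 / 2 ^ (k + 1) < c → c ≤ ρ / 8 / 2 ^ k → ∀ L : E n ≃L[ℝ] E n,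
      Apx n (1 / 1000) g p c L →
      ‖(L : E n →L[ℝ] E n)‖ ≤ (51 / 50) ^ (k + 1) * ‖(Λ : E n →L[ℝ] E n)‖ ∧
      ‖(L.symm : E n →L[ℝ] E n)‖ ≤ (51 / 50) ^ (k + 1) * ‖(Λ.symm : E n →L[ℝ] E n)‖ := by
  induction k with
  | zero =>
    intro c hc1 hc2 L hL
    rw [pow_zero, div_one] at hc2
    rw [zero_add, pow_one] at hc1
    have h1 := cmp n g 0 p (ρ / 2) c (by linarith) (by linarith) (by rw [sub_zero]; linarith)
      Λ L hΛ hL
    rw [zero_add, pow_one]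
    exact h1
  | succ k ih =>
    intro c hc1 hc2 L hL
    have h2k : (0 : ℝ) < 2 ^ k := by positivity
    have h1 : ρ / 8 / 2 ^ (k + 1) < 2 * c := by
      have e : ρ / 8 / 2 ^ (k + 1) = 2 * (ρ / 8 / 2 ^ (k + 1 + 1)) := by
        rw [pow_succ (2 : ℝ) (k + 1)]
        field_simp
      rw [e]
      linarith
    have h2 : 2 * c ≤ ρ / 8 / 2 ^ k := by
      have e : ρ / 8 / 2 ^ k = 2 * (ρ / 8 / 2 ^ (k + 1)) := by
        rw [pow_succ (2 : ℝ) k]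
        field_simp
      rw [e]
      linarith
    have hc0 : 0 < c := lt_of_le_of_lt (by positivity) hc1
    have h3 : ρ / 8 / 2 ^ k ≤ ρ / 8 := div_le_self (by positivity) (one_le_pow₀ (by norm_num))
    obtain ⟨L₂, hL₂⟩ := hg p (by linarith) (2 * c) (by linarith) (by linarith)
    have h4 := ih (2 * c) h1 h2 L₂ hL₂
    have h5 := cmp n g p p (2 * c) c hc0 (by linarith) (by rw [sub_self, norm_zero]; linarith)
      L₂ L hL₂ hL
    constructor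
    · refine h5.1.trans ?_
      rw [pow_succ' (51 / 50 : ℝ) (k + 1), mul_assoc]
      exact mul_le_mul_of_nonneg_left h4.1 (by norm_num)
    · refine h5.2.trans ?_
      rw [pow_succ' (51 / 50 : ℝ) (k + 1), mul_assoc]
      exact mul_le_mul_of_nonneg_left h4.2 (by norm_num)

theorem exists_scale (r₀ c : ℝ) (hc : 0 < c) (hr : 0 < r₀) (k₀ : ℕ) (h : c ≤ r₀ / 2 ^ k₀) :
    ∃ k, k₀ ≤ k ∧ r₀ / 2 ^ (k + 1) < c ∧ c ≤ r₀ / 2 ^ k := by
  classical
  have hex : ∃ k, r₀ / 2 ^ (k + 1) < c := by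
    obtain ⟨k, hk⟩ := pow_unbounded_of_one_lt (r₀ / c) (show (1 : ℝ) < 2 by norm_num)
    refine ⟨k, ?_⟩
    rw [div_lt_iff₀ (by positivity)]
    rw [div_lt_iff₀ hc] at hk
    have : (2 : ℝ) ^ k ≤ 2 ^ (k + 1) := pow_le_pow_right₀ (by norm_num) (Nat.le_succ k)
    nlinarith
  obtain ⟨k, hk⟩ : ∃ k, k = Nat.find hex := ⟨_, rfl⟩
  have h1 : r₀ / 2 ^ (k + 1) < c := hk ▸ Nat.find_spec hex
  have hk0 : k₀ ≤ k := by
    by_contra hlt
    rw [not_le] at hlt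
    have h2 : (2 : ℝ) ^ (k + 1) ≤ 2 ^ k₀ := pow_le_pow_right₀ (by norm_num) hlt
    have h3 : r₀ / 2 ^ k₀ ≤ r₀ / 2 ^ (k + 1) := div_le_div_of_nonneg_left hr.le (by positivity) h2
    linarith
  refine ⟨k, hk0, h1, ?_⟩
  rcases Nat.eq_zero_or_pos k with hz | hpos
  · have : k₀ = 0 := by omega
    rw [hz]
    rw [this] at h
    exact h
  · have h2 := Nat.find_min hex (m := k - 1) (by omega)
    rw [not_lt, Nat.sub_add_cancel hpos] at h2
    exact h2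

theorem grow : StGrow := by
  intro n
  refine ⟨1 / 1000, by norm_num, fun g ρ hρ _ hg η hη => ?_⟩
  obtain ⟨Λ, hΛ⟩ := hg 0 (by rw [norm_zero]; exact hρ) (ρ / 2) (by positivity) (by linarith)
  obtain ⟨a, ha⟩ : ∃ a, a = ‖(Λ.symm : E n →L[ℝ] E n)‖ := ⟨_, rfl⟩
  obtain ⟨b, hb⟩ : ∃ b, b = ‖(Λ : E n →L[ℝ] E n)‖ := ⟨_, rfl⟩
  have ha0 : 0 ≤ a := ha ▸ norm_nonneg _
  have hb0 : 0 ≤ b := hb ▸ norm_nonneg _
  obtain ⟨D, hD⟩ : ∃ D, D = 2 * (a * b ^ 2 * (ρ / 8)) + 2 * (b * (ρ / 8)) + 1 := ⟨_, rfl⟩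
  have hD0 : 0 < D := by
    rw [hD]
    positivity
  obtain ⟨k₀, hk₀⟩ := exists_pow_lt_of_lt_one (show 0 < η / D by positivity)
    (show (3 / 4 : ℝ) < 1 by norm_num)
  refine ⟨ρ / 16, ρ / 8 / 2 ^ k₀, by positivity, by positivity, fun p hp c hc hc0 L hL => ?_⟩
  obtain ⟨k, hk, hk1, hk2⟩ := exists_scale (ρ / 8) c hc (by positivity) k₀ hc0
  obtain ⟨h1, h2⟩ := steps n g ρ hρ hg Λ hΛ p hp k c hk1 hk2 L hL
  rw [← hb] at h1
  rw [← ha] at h2
  have hL0 := norm_nonneg (L : E n →L[ℝ] E n)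
  have hLs0 := norm_nonneg (L.symm : E n →L[ℝ] E n)
  generalize ‖(L : E n →L[ℝ] E n)‖ = l at h1 hL0 ⊢
  generalize ‖(L.symm : E n →L[ℝ] E n)‖ = m at h2 hLs0 ⊢
  have h34 : (3 / 4 : ℝ) ^ k * D ≤ η := by
    have h3 : (3 / 4 : ℝ) ^ k ≤ (3 / 4) ^ k₀ := pow_le_pow_of_le_one (by norm_num) (by norm_num) hk
    have h4 : (3 / 4 : ℝ) ^ k₀ * D ≤ η := by
      rw [lt_div_iff₀ hD0] at hk₀
      exact hk₀.le
    exact (mul_le_mul_of_nonneg_right h3 hD0.le).trans h4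
  have h34' : (0 : ℝ) ≤ (3 / 4 : ℝ) ^ k := by positivity
  obtain ⟨q, hq⟩ : ∃ q : ℝ, q = (51 / 50) ^ k := ⟨_, rfl⟩
  have hq0 : 0 < q := by
    rw [hq]
    positivity
  rw [pow_succ, ← hq] at h1 h2
  have h2k : (0 : ℝ) < 2 ^ k := by positivity
  have hq3 : q ^ 3 / 2 ^ k ≤ (3 / 4 : ℝ) ^ k := by
    rw [hq, ← pow_mul, mul_comm k 3, pow_mul, ← div_pow]
    exact pow_le_pow_left₀ (by norm_num) (by norm_num) k
  have hq1 : q / 2 ^ k ≤ (3 / 4 : ℝ) ^ k := by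
    rw [hq, ← div_pow]
    exact pow_le_pow_left₀ (by norm_num) (by norm_num) k
  constructor
  · calc m * l ^ 2 * c ≤ (q * (51 / 50) * a) * (q * (51 / 50) * b) ^ 2 * (ρ / 8 / 2 ^ k) := by
          gcongr
      _ = (51 / 50) ^ 3 * (a * b ^ 2 * (ρ / 8)) * (q ^ 3 / 2 ^ k) := by
          field_simp
      _ ≤ (51 / 50) ^ 3 * (a * b ^ 2 * (ρ / 8)) * (3 / 4 : ℝ) ^ k := by
          apply mul_le_mul_of_nonneg_left hq3
          positivity
      _ ≤ (3 / 4 : ℝ) ^ k * D := by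
          rw [mul_comm]
          apply mul_le_mul_of_nonneg_left _ h34'
          rw [hD]
          have x1 : 0 ≤ a * b ^ 2 * (ρ / 8) := by positivity
          have x2 : 0 ≤ b * (ρ / 8) := by positivity
          nlinarith
      _ ≤ η := h34
  · calc l * c ≤ (q * (51 / 50) * b) * (ρ / 8 / 2 ^ k) := by
          gcongr
      _ = (51 / 50) * (b * (ρ / 8)) * (q / 2 ^ k) := by
          field_simp
      _ ≤ (51 / 50) * (b * (ρ / 8)) * (3 / 4 : ℝ) ^ k := by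
          apply mul_le_mul_of_nonneg_left hq1
          positivity
      _ ≤ (3 / 4 : ℝ) ^ k * D := by
          rw [mul_comm]
          apply mul_le_mul_of_nonneg_left _ h34'
          rw [hD]
          have x1 : 0 ≤ a * b ^ 2 * (ρ / 8) := by positivity
          have x2 : 0 ≤ b * (ρ / 8) := by positivity
          nlinarith
      _ ≤ η := h34

end Pool.Agent.Y475.NA
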